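import Pool.Agent.H526R3.ML.Quo

/-!
Solvable automorphic loops of exponent two have a nontrivial middle nucleus.
-/

set_option autoImplicit false

namespace Pool.Agent.Results.MP_20a840_al.ExponentTwo

/-- A loop with underlying set `Q`, product `op` and neutral element `e`. -/
structure Loop (Q : Type) where
  op : Q → Q → Q
  e : Q
  one_op : ∀ x, op e x = x
  op_one : ∀ x, op x e = x
  bijL : ∀ x, Function.Bijective (fun y => op x y)
  bijR : ∀ x, Function.Bijective (fun y => op y x)

namespace Loop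

variable {Q : Type} (A : Loop Q)

/-- The left translation by `x`. -/
noncomputable def L (x : Q) : Equiv.Perm Q := Equiv.ofBijective _ (A.bijL x)

/-- The right translation by `x`. -/
noncomputable def R (x : Q) : Equiv.Perm Q := Equiv.ofBijective _ (A.bijR x)

/-- The multiplication group, generated by all translations. -/
def Mlt : Subgroup (Equiv.Perm Q) := Subgroup.closure (Set.range A.L ∪ Set.range A.R)

/-- Every element of the multiplication group that fixes the neutral element is an
automorphism. -/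
def Automorphic : Prop :=
  ∀ g ∈ A.Mlt, g A.e = A.e → ∀ x y, g (A.op x y) = A.op (g x) (g y)

/-- The middle nucleus. -/
def middleNucleus : Set Q := {a | ∀ x y, A.op (A.op x a) y = A.op x (A.op a y)}

end Loop

/-- Solvable loops: the one-element loops, and the loops having a surjective homomorphism
onto a solvable loop whose kernel is an abelian group. -/
inductive Solvable : (Q : Type) → Loop Q → Prop
  | triv (Q : Type) (A : Loop Q) (h : ∀ x, x = A.e) : Solvable Q A
  | step (Q Q' : Type) (A : Loop Q) (B : Loop Q') (f : Q → Q')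
      (hom : ∀ x y, f (A.op x y) = B.op (f x) (f y)) (surj : Function.Surjective f)
      (comm : ∀ m n, f m = B.e → f n = B.e → A.op m n = A.op n m)
      (assoc : ∀ m n p, f m = B.e → f n = B.e → f p = B.e →
        A.op (A.op m n) p = A.op m (A.op n p))
      (h : Solvable Q' B) : Solvable Q A

open Pool.Agent.H687R3.AL Pool.Agent.H526R3.ML

theorem key {Q : Type} (A : Loop Q) (hA : A.Automorphic) (P H : Equiv.Perm Q) (hP : P ∈ A.Mlt)
    (hH : H ∈ A.Mlt) (he : P A.e = H A.e) {z₁ z₂ w₁ w₂ : Q} (h1 : P w₁ = H z₁)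
    (h2 : P w₂ = H z₂) : P (A.op w₁ w₂) = H (A.op z₁ z₂) := by
  have e0 : (P⁻¹ * H) A.e = A.e := by rw [Equiv.Perm.mul_apply, ← he]; simp
  have e1 : (P⁻¹ * H) z₁ = w₁ := by rw [Equiv.Perm.mul_apply, ← h1]; simp
  have e2 : (P⁻¹ * H) z₂ = w₂ := by rw [Equiv.Perm.mul_apply, ← h2]; simp
  have h3 := hA _ (A.Mlt.mul_mem (A.Mlt.inv_mem hP) hH) e0 z₁ z₂
  rw [e1, e2] at h3
  rw [← h3]; simp

theorem L_mem {Q : Type} (A : Loop Q) (x : Q) : A.L x ∈ A.Mlt :=
  Subgroup.subset_closure (Or.inl ⟨x, rfl⟩)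

theorem R_mem {Q : Type} (A : Loop Q) (x : Q) : A.R x ∈ A.Mlt :=
  Subgroup.subset_closure (Or.inr ⟨x, rfl⟩)

def toAL {Q : Type} (A : Loop Q) (hA : A.Automorphic) : AL Q where
  op := A.op
  e := A.e
  idl := A.one_op
  idr := A.op_one
  bijL := A.bijL
  bijR := A.bijR
  autL := by
    intro x y z₁ z₂ w₁ w₂ h1 h2
    refine key A hA (A.L (A.op y x)) (A.L y * A.L x) (L_mem A _)
      (A.Mlt.mul_mem (L_mem A _) (L_mem A _)) ?_ h1 h2
    change A.op (A.op y x) A.e = A.op y (A.op x A.e)
    rw [A.op_one, A.op_one]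
  autR := by
    intro x y z₁ z₂ w₁ w₂ h1 h2
    refine key A hA (A.R (A.op x y)) (A.R y * A.R x) (R_mem A _)
      (A.Mlt.mul_mem (R_mem A _) (R_mem A _)) ?_ h1 h2
    change A.op A.e (A.op x y) = A.op (A.op A.e x) y
    rw [A.one_op, A.one_op]
  autT := by
    intro x z₁ z₂ w₁ w₂ h1 h2
    refine key A hA (A.R x) (A.L x) (R_mem A _) (L_mem A _) ?_ h1 h2
    change A.op A.e x = A.op x A.e
    rw [A.one_op, A.op_one]

theorem ce_of_exp {Q : Type} (A : AL Q) (h : ∀ x, A.op x x = A.e) : CE A := by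
  have hi : ∀ x, A.inv x = x := fun x => (AL.eq_inv (h x)).symm
  refine ⟨fun x y => ?_, h⟩
  have h1 := AL.aaip (A := A) x y
  rwa [hi, hi, hi] at h1

theorem solv_aux {Q : Type} {A : Loop Q} (h : Solvable Q A) :
    ∀ A' : AL Q, A'.op = A.op → A'.e = A.e → Finite Q → CE A' → IsPGroup 2 (K A') := by
  induction h with
  | triv Q A h =>
    intro A' _ _ _ _ g
    refine ⟨0, Subtype.ext (Equiv.ext fun x => ?_)⟩
    rw [h x, h (((g ^ 2 ^ 0 : K A') : Equiv.Perm Q) A.e)]
    rfl
  | step Q Q' A B f hom surj comm assoc h ih =>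
    intro A' hop he hfin hCE
    have hf : ∀ x y, f (A'.op x y) = B.op (f x) (f y) := by rw [hop]; exact hom
    obtain ⟨B', hB'1, hB'2⟩ : ∃ B' : AL Q', B'.op = B.op ∧ B'.e = B.e :=
      ⟨img A' B.op B.e f surj hf B.one_op B.op_one B.bijL B.bijR, rfl, rfl⟩
    have hf' : ∀ x y, f (A'.op x y) = B'.op (f x) (f y) := by rw [hB'1]; exact hf
    have hCB : CE B' := CE_img hCE f surj hf'
    have hKB := ih B' hB'1 hB'2 (Finite.of_surjective f surj) hCB
    refine ext_general B' hCB hKB _ Q A' f hCE hf' surj ?_ rfl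
    intro m n p hm hn hp
    rw [hB'2] at hm hn hp
    rw [hop]
    exact assoc m n p hm hn hp

/-- Let `Q` be a finite solvable automorphic loop of exponent two having more than one element.
Then the middle nucleus of `Q` contains an element other than the neutral element. -/
theorem result (Q : Type) [Finite Q] [Nontrivial Q] (A : Loop Q) (hA : A.Automorphic)
    (hexp : ∀ x, A.op x x = A.e) (hsol : Solvable Q A) :
    ∃ a ∈ A.middleNucleus, a ≠ A.e := by
  have hCE : CE (toAL A hA) := ce_of_exp _ hexp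
  have hK : IsPGroup 2 (K (toAL A hA)) := solv_aux hsol (toAL A hA) rfl rfl inferInstance hCE
  obtain ⟨a, hae, ha⟩ := fixed_of_pgroup hCE hK (exists_ne A.e)
  exact ⟨a, ha, hae⟩

end Pool.Agent.Results.MP_20a840_al.ExponentTwo
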