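import Pool.Agent.H361R3.AL.Final

/-!
Automorphic loops of odd prime power order have a nontrivial middle nucleus.
-/

universe u

open H361AL

/-- The middle nucleus of a loop. -/
def Pool.Agent.Results.MP_20a840_al.OddPrimes.middleNucleus (Q : Type u) [Loop Q] : Set Q :=
  {a | ∀ x y : Q, (x * a) * y = x * (a * y)}

open Pool.Agent.Results.MP_20a840_al.OddPrimes in
/-- Let `p` be an odd prime and `k ≥ 1`. Every automorphic loop of order `p ^ k` has a middle
nucleus containing an element other than `1`. So for odd `p` there is no automorphic loop of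
order `p ^ k`, `k ≥ 1`, with trivial middle nucleus. -/
theorem Pool.Agent.Results.MP_20a840_al.OddPrimes.result (p k : ℕ) (hp : p.Prime) (hp2 : p ≠ 2)
    (hk : 1 ≤ k) (Q : Type u) [Loop Q] [Automorphic Q] (hcard : Nat.card Q = p ^ k) :
    (∃ a ∈ middleNucleus Q, a ≠ 1) ∧ middleNucleus Q ≠ {1} := by
  have hfin : Finite Q := Nat.finite_of_card_ne_zero (by
    rw [hcard]; exact pow_ne_zero _ hp.ne_zero)
  obtain ⟨a, ha1, ha⟩ := main (Q := Q) hp hp2 hcard hk
  have hmem : a ∈ middleNucleus Q := ha
  refine ⟨⟨a, hmem, ha1⟩, ?_⟩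
  intro h
  rw [h] at hmem
  exact ha1 hmem
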